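import Pool.Agent.P3C.Count

/-!
# The colouring
-/

set_option autoImplicit false

namespace Pool.Agent.P3C

open SimpleGraph

variable {V : Type} [Finite V]

/-- comparing two graphs along a walk -/
lemma reach_along {F H : SimpleGraph V} {a b : V} (p : F.Walk a b)
    (h : ∀ x y, F.Adj x y → x ∈ p.support → y ∈ p.support → H.Adj x y) :
    ∀ v ∈ p.support, H.Reachable a v := by
  induction p with
  | nil =>
    intro v hv
    rw [Walk.support_nil, List.mem_singleton] at hv
    rw [hv]
  | @cons u v w huv q ih =>
    intro x hx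
    rw [Walk.support_cons, List.mem_cons] at hx
    rcases hx with hx | hx
    · rw [hx]
    · have h1 : H.Adj u v := by
        apply h u v huv
        · rw [Walk.support_cons]
          exact List.mem_cons_self
        · rw [Walk.support_cons]
          exact List.mem_cons_of_mem _ (Walk.start_mem_support q)
      refine h1.reachable.trans (ih ?_ x hx)
      intro x y hxy hx hy
      apply h x y hxy
      · rw [Walk.support_cons]
        exact List.mem_cons_of_mem _ hx
      · rw [Walk.support_cons]
        exact List.mem_cons_of_mem _ hy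

/-- every vertex of a nontrivial walk has a neighbour on the walk -/
lemma walk_nbr {F : SimpleGraph V} {a b : V} (p : F.Walk a b) (hab : 0 < p.length) {v : V}
    (hv : v ∈ p.support) : ∃ u ∈ p.support, F.Adj v u := by
  obtain ⟨i, hi, hil⟩ := Walk.mem_support_iff_exists_getVert.1 hv
  by_cases h0 : i = p.length
  · have h2 := p.adj_getVert_succ (i := i - 1) (by omega)
    rw [show i - 1 + 1 = i by omega, hi] at h2
    exact ⟨_, p.getVert_mem_support _, h2.symm⟩
  · have h2 := p.adj_getVert_succ (i := i) (by omega)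
    rw [hi] at h2
    exact ⟨_, p.getVert_mem_support _, h2⟩

namespace Setup

variable {s : Setup V} {R : Set V}

/-- the cut vertices -/
def Zs (s : Setup V) (R : Set V) : Set V := {v | s.Int v ∧ s.w v ∈ R}

/-- closure along paths of `H1` between non-inner vertices -/
lemma closed_path' {a b : V} (p : s.H1.Walk a b) (hp : p.IsPath) (hab : a ≠ b)
    (ha : ¬ s.Int a) (hb : ¬ s.Int b) {v u : V} (hv : v ∈ p.support) (hvY : v ∉ s.Y)
    (hvu : s.H1.Adj v u) : u ∈ p.support := by
  have hnil : ¬ p.Nil := fun h => hab h.eq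
  have main : p.toSubgraph.neighborSet v = s.H1.neighborSet v := by
    apply Set.eq_of_subset_of_ncard_le (p.toSubgraph.neighborSet_subset v) _ (Set.toFinite _)
    by_cases hva : v = a
    · subst hva
      rw [hp.neighborSet_toSubgraph_startpoint hnil, Set.ncard_singleton]
      exact s.not_int hvY ha
    · by_cases hvb : v = b
      · subst hvb
        rw [hp.neighborSet_toSubgraph_endpoint hnil, Set.ncard_singleton]
        exact s.not_int hvY hb
      · rw [path_inner p hp hv hva hvb]
        exact s.hd v hvY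
  have h2 : u ∈ p.toSubgraph.neighborSet v := by
    rw [main]
    exact hvu
  exact p.mem_verts_toSubgraph.1 (p.toSubgraph.edge_vert (Subgraph.Adj.symm h2))

lemma closed_cycle' {a : V} (c : s.H1.Walk a a) (hc : c.IsCycle) {v u : V}
    (hv : v ∈ c.support) (hvY : v ∉ s.Y) (hvu : s.H1.Adj v u) : u ∈ c.support := by
  have main : c.toSubgraph.neighborSet v = s.H1.neighborSet v := by
    apply Set.eq_of_subset_of_ncard_le (c.toSubgraph.neighborSet_subset v) _ (Set.toFinite _)
    rw [hc.ncard_neighborSet_toSubgraph_eq_two hv]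
    exact s.hd v hvY
  have h2 : u ∈ c.toSubgraph.neighborSet v := by
    rw [main]
    exact hvu
  exact c.mem_verts_toSubgraph.1 (c.toSubgraph.edge_vert (Subgraph.Adj.symm h2))

/-- a set closed outside `Y` and free of cut vertices misses the long components -/
lemma no_long (hR : s.Good R) {S : Set V} (hS : ∀ v ∈ S, v ∉ s.Y → ∀ u, s.H1.Adj v u → u ∈ S)
    (hZ : ∀ v ∈ S, v ∉ s.Zs R) {v : V} (hv : v ∈ S) : ¬ s.Lg v := by
  intro hL
  obtain ⟨c, hc, hcI, hcR⟩ := hR.cut _ hL
  have h1 : c ∈ S := by
    rw [ConnectedComponent.mem_supp_iff, ConnectedComponent.eq] at hc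
    refine reach_closed (H := s.H2) (fun x hx y hxy => ?_) hv hc.symm
    exact hS x hx (fun h => hxy.2.1 (Or.inr h)) y (s.H2_le hxy)
  exact hZ c h1 ⟨hcI, hcR⟩

lemma z_indep (hR : s.Good R) {u v : V} (hu : u ∈ s.Zs R) (hv : v ∈ s.Zs R) : ¬ s.G.Adj u v := by
  intro huv
  have h1 : s.H1.Adj u v := ⟨huv, s.int_off hu.1, s.int_off hv.1⟩
  have h2 : s.Pt u v := Or.inl ⟨hu.1, hv.1, h1⟩
  by_cases h3 : s.w u = s.w v
  · have h4 := girth_close (G := s.G) s.hg (a := u) (b := v) (r := s.w u)
      (Walk.cons huv Walk.nil) (by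
        rw [Walk.cons_isPath_iff]
        refine ⟨Walk.IsPath.nil, ?_⟩
        rw [Walk.support_nil, List.mem_singleton]
        exact huv.ne) huv.ne (by
        rw [Walk.support_cons, Walk.support_nil, List.mem_cons, List.mem_singleton]
        rintro (h | h)
        · exact (s.adj_w hu.1).ne h.symm
        · rw [h3] at h
          exact (s.adj_w hv.1).ne h.symm) (s.adj_w hu.1).symm (by
        rw [h3]
        exact (s.adj_w hv.1).symm)
    rw [Walk.length_cons, Walk.length_nil] at h4
    have := s.hN
    have := s.hm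
    omega
  · exact hR.cf _ hu.2 _ hv.2 h3 u v (s.adj_w hu.1).symm h2 (s.adj_w hv.1)

/-- the pieces -/
def F (s : Setup V) (R : Set V) : SimpleGraph V := off s.H1 (s.Zs R)

lemma F_le : s.F R ≤ s.H1 := off_le _ _

lemma F_support {a b : V} (p : (s.F R).Walk a b) (hab : 0 < p.length) {v : V}
    (hv : v ∈ p.support) : v ∉ s.Zs R ∧ v ∉ s.X := by
  obtain ⟨u, _, hu⟩ := walk_nbr p hab hv
  exact ⟨hu.2.1, hu.1.2.1⟩

/-- a nontrivial walk of `F` which misses the long components is short in the number of its
vertices -/
lemma F_short {a b : V} (p : (s.F R).Walk a b) (hab : 0 < p.length)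
    (hL : ∀ v ∈ p.support, ¬ s.Lg v) :
    (∀ v ∈ p.support, s.Hs.Reachable a v) ∧
      {v | v ∈ p.support}.ncard ≤ s.k + s.k * s.D * s.N + s.N := by
  have h1 : ∀ v ∈ p.support, s.Hs.Reachable a v := by
    apply reach_along
    intro x y hxy hx hy
    refine ⟨hxy.1.1, ?_, ?_⟩
    · rintro (h | h)
      · exact hxy.1.2.1 h
      · exact hL x hx h
    · rintro (h | h)
      · exact hxy.1.2.2 h
      · exact hL y hy h
  exact ⟨h1, (Set.ncard_le_ncard (fun v hv => h1 v hv) (Set.toFinite _)).trans (s.comp_bound a)⟩

lemma F_acyclic (hR : s.Good R) : (s.F R).IsAcyclic := by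
  classical
  intro u c hc
  have hc' : (c.mapLe F_le).IsCycle := hc.mapLe F_le
  have hsupp : (c.mapLe (F_le (s := s) (R := R))).support = c.support := by
    rw [Walk.mapLe, Walk.support_map]
    simp
  have hpos : 0 < c.length := by
    have := hc.three_le_length
    omega
  have hL : ∀ v ∈ c.support, ¬ s.Lg v := by
    intro v hv
    refine no_long hR (S := {x | x ∈ c.support}) ?_ (fun x hx => (F_support c hpos hx).1) hv
    intro x hx hxY y hxy
    have h1 := closed_cycle' (c.mapLe (F_le (s := s) (R := R))) hc' (v := x) (u := y) (by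
      rw [hsupp]
      exact hx) hxY hxy
    rw [hsupp] at h1
    exact h1
  have h1 := (F_short c hpos hL).2
  have h2 : (c.support.tail.toFinset : Set V) ⊆ {v | v ∈ c.support} := by
    intro v hv
    rw [Finset.mem_coe, List.mem_toFinset] at hv
    exact List.mem_of_mem_tail hv
  have h3 := Set.ncard_le_ncard h2 (Set.toFinite _)
  rw [Set.ncard_coe_finset, List.toFinset_card_of_nodup hc.support_nodup, List.length_tail,
    Walk.length_support] at h3
  have h4 := s.hg u ((c.mapLe F_le).mapLe s.H1_le) (hc'.mapLe _)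
  rw [Walk.mapLe, Walk.length_map, Walk.mapLe, Walk.length_map] at h4
  omega

/-- the vertices that must get the third colour -/
def Forced (s : Setup V) (R : Set V) (v : V) : Prop :=
  v ∉ s.X ∧ ¬ s.Int v ∧ ∃ r ∈ R, s.G.Adj r v

lemma forced_unique (hR : s.Good R) {e e' : V} (he : s.Forced R e) (he' : s.Forced R e')
    (hee : (s.F R).Reachable e e') : e = e' := by
  classical
  by_contra hne
  obtain ⟨p, hp⟩ := hee.exists_isPath
  have hpos : 0 < p.length := by
    rw [Nat.pos_iff_ne_zero]
    intro h
    exact hne (Walk.eq_of_length_eq_zero h)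
  set q := p.mapLe (F_le (s := s) (R := R)) with hq
  have hqp : q.IsPath := hp.mapLe _
  have hsupp : q.support = p.support := by
    rw [hq, Walk.mapLe, Walk.support_map]
    simp
  have hL : ∀ v ∈ p.support, ¬ s.Lg v := by
    intro v hv
    refine no_long hR (S := {x | x ∈ p.support}) ?_ (fun x hx => (F_support p hpos hx).1) hv
    intro x hx hxY y hxy
    have h1 := closed_path' q hqp hne he.2.1 he'.2.1 (v := x) (u := y) (by
      rw [hsupp]
      exact hx) hxY hxy
    rw [hsupp] at h1
    exact h1
  obtain ⟨h1, h2⟩ := F_short p hpos hL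
  have h3 : p.length + 1 ≤ s.k + s.k * s.D * s.N + s.N := by
    have h5 : (p.support.toFinset : Set V) ⊆ {v | v ∈ p.support} := by
      intro v hv
      rw [Finset.mem_coe, List.mem_toFinset] at hv
      exact hv
    have h6 := Set.ncard_le_ncard h5 (Set.toFinite _)
    rw [Set.ncard_coe_finset, List.toFinset_card_of_nodup hp.support_nodup,
      Walk.length_support] at h6
    omega
  have hpt : s.Pt e e' := Or.inr ⟨hne, he.2.1, he'.2.1, h1 e' (Walk.end_mem_support p)⟩
  obtain ⟨r, hr, hre⟩ := he.2.2
  obtain ⟨r', hr', hre'⟩ := he'.2.2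
  by_cases hrr : r = r'
  · subst hrr
    have h4 := girth_close (G := s.G) s.hg (q.mapLe s.H1_le) (hqp.mapLe _) hne (r := r) (by
      intro hcon
      have h5 : r ∈ p.support := by
        rw [Walk.mapLe, Walk.support_map] at hcon
        rw [← hsupp]
        simpa using hcon
      exact (F_support p hpos h5).2 (hR.sub r hr)) hre hre'
    rw [Walk.mapLe, Walk.length_map, hq, Walk.mapLe, Walk.length_map] at h4
    omega
  · exact hR.cf r hr r' hr' hrr e e' hre hpt hre'.symm

end Setup

end Pool.Agent.P3C
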