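import Mathlib

/-!
# Paths and cycles in a graph of maximum degree two
-/

set_option autoImplicit false

namespace Pool.Agent.P3C

open SimpleGraph

variable {V : Type} [Finite V] {H : SimpleGraph V}

/-- a set of neighbours of size two in a graph of maximum degree two is everything -/
lemma nbr_of_two (hd : ∀ v, (H.neighborSet v).ncard ≤ 2) {u w x : V} (p : H.Walk u w)
    (hx : (p.toSubgraph.neighborSet x).ncard = 2) :
    p.toSubgraph.neighborSet x = H.neighborSet x := by
  apply Set.eq_of_subset_of_ncard_le (p.toSubgraph.neighborSet_subset x) _ (Set.toFinite _)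
  rw [hx]
  exact hd x

lemma closed_cycle (hd : ∀ v, (H.neighborSet v).ncard ≤ 2) {u : V} (c : H.Walk u u)
    (hc : c.IsCycle) {v w : V} (hv : v ∈ c.support) (hvw : H.Adj v w) : w ∈ c.support := by
  have h1 := nbr_of_two hd c (hc.ncard_neighborSet_toSubgraph_eq_two hv)
  have h2 : w ∈ c.toSubgraph.neighborSet v := by
    rw [h1]
    exact hvw
  exact c.mem_verts_toSubgraph.1 (c.toSubgraph.edge_vert (Subgraph.Adj.symm h2))

lemma path_inner {a b : V} (p : H.Walk a b)
    (hp : p.IsPath) {v : V} (hv : v ∈ p.support) (ha : v ≠ a) (hb : v ≠ b) :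
    (p.toSubgraph.neighborSet v).ncard = 2 := by
  obtain ⟨i, hi, hil⟩ := Walk.mem_support_iff_exists_getVert.1 hv
  rw [← hi]
  apply hp.ncard_neighborSet_toSubgraph_internal_eq_two
  · rintro rfl
    apply ha
    rw [← hi, Walk.getVert_zero]
  · apply lt_of_le_of_ne hil
    rintro rfl
    apply hb
    rw [← hi, Walk.getVert_length]

lemma path_inner_deg (hd : ∀ v, (H.neighborSet v).ncard ≤ 2) {a b : V} (p : H.Walk a b)
    (hp : p.IsPath) {v : V} (hv : v ∈ p.support) (ha : v ≠ a) (hb : v ≠ b) :
    (H.neighborSet v).ncard = 2 := by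
  rw [← nbr_of_two hd p (path_inner p hp hv ha hb)]
  exact path_inner p hp hv ha hb

lemma closed_path (hd : ∀ v, (H.neighborSet v).ncard ≤ 2) {a b : V} (p : H.Walk a b)
    (hp : p.IsPath) (hab : a ≠ b) (ha : (H.neighborSet a).ncard ≤ 1)
    (hb : (H.neighborSet b).ncard ≤ 1) {v w : V} (hv : v ∈ p.support) (hvw : H.Adj v w) :
    w ∈ p.support := by
  have hnil : ¬ p.Nil := fun h => hab h.eq
  have main : w ∈ p.toSubgraph.neighborSet v := by
    by_cases hva : v = a
    · subst hva
      have h1 : p.toSubgraph.neighborSet v = H.neighborSet v := by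
        apply Set.eq_of_subset_of_ncard_le (p.toSubgraph.neighborSet_subset v) _ (Set.toFinite _)
        rw [hp.neighborSet_toSubgraph_startpoint hnil, Set.ncard_singleton]
        exact ha
      rw [h1]
      exact hvw
    · by_cases hvb : v = b
      · subst hvb
        have h1 : p.toSubgraph.neighborSet v = H.neighborSet v := by
          apply Set.eq_of_subset_of_ncard_le (p.toSubgraph.neighborSet_subset v) _ (Set.toFinite _)
          rw [hp.neighborSet_toSubgraph_endpoint hnil, Set.ncard_singleton]
          exact hb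
        rw [h1]
        exact hvw
      · rw [nbr_of_two hd p (path_inner p hp hv hva hvb)]
        exact hvw
  exact p.mem_verts_toSubgraph.1 (p.toSubgraph.edge_vert (Subgraph.Adj.symm main))

omit [Finite V] in
/-- a set closed under adjacency contains everything reachable -/
lemma reach_closed {S : Set V} (hS : ∀ v ∈ S, ∀ w, H.Adj v w → w ∈ S) {a b : V} (ha : a ∈ S)
    (hab : H.Reachable a b) : b ∈ S := by
  obtain ⟨p⟩ := hab
  induction p with
  | nil => exact ha
  | cons h _ ih => exact ih (hS _ ha _ h)

/-- in a graph of maximum degree two a component has at most two vertices of degree at most one -/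
lemma third_end (hd : ∀ v, (H.neighborSet v).ncard ≤ 2) {a b c : V}
    (ha : (H.neighborSet a).ncard ≤ 1) (hb : (H.neighborSet b).ncard ≤ 1)
    (hc : (H.neighborSet c).ncard ≤ 1) (hab : H.Reachable a b) (hac : H.Reachable a c)
    (h1 : a ≠ b) (h2 : a ≠ c) : b = c := by
  by_contra h3
  obtain ⟨p, hp⟩ := hab.exists_isPath
  have h4 : c ∈ {v | v ∈ p.support} := by
    refine reach_closed (H := H) (fun v hv w hvw => ?_) (Walk.start_mem_support p) hac
    exact closed_path hd p hp h1 ha hb hv hvw
  have h5 := path_inner_deg hd p hp h4 h2.symm (Ne.symm h3)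
  omega

omit [Finite V] in
/-- closing a path by a vertex adjacent to both ends -/
lemma girth_close {G : SimpleGraph V} {N : ℕ} (hg : ∀ (u : V) (c : G.Walk u u), c.IsCycle → N < c.length)
    {a b r : V} (p : G.Walk a b) (hp : p.IsPath) (hab : a ≠ b) (hr : r ∉ p.support)
    (hra : G.Adj r a) (hrb : G.Adj r b) : N < p.length + 2 := by
  have h1 : (p.concat hrb.symm).IsPath := hp.concat hr hrb.symm
  have h2 : (Walk.cons hra (p.concat hrb.symm)).IsCycle := by
    rw [Walk.cons_isCycle_iff]
    refine ⟨h1, ?_⟩
    rw [Walk.edges_concat, List.concat_eq_append, List.mem_append]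
    rintro (h | h)
    · exact hr (p.fst_mem_support_of_mem_edges h)
    · rw [List.mem_singleton, Sym2.eq_iff] at h
      rcases h with ⟨h, _⟩ | ⟨_, h⟩
      · exact hr (h ▸ p.end_mem_support)
      · exact hab h
  have h3 := hg _ _ h2
  rw [Walk.length_cons, Walk.length_concat] at h3
  omega

/-- a large component contains a window: `N` vertices at pairwise distance at most `2 N` -/
lemma window (K : H.ConnectedComponent) {N : ℕ} (hK : N ≤ K.supp.ncard) :
    ∃ S : Finset V, S.card = N ∧ (∀ v ∈ S, v ∈ K.supp) ∧
      ∀ a ∈ S, ∀ b ∈ S, ∃ p : H.Walk a b, p.length ≤ 2 * N := by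
  classical
  cases nonempty_fintype V
  obtain ⟨v0, hv0⟩ : ∃ v0, H.connectedComponentMk v0 = K := K.exists_rep
  subst hv0
  set B : Set V := {v | ∃ p : H.Walk v0 v, p.length ≤ N} with hB
  have key : N ≤ B.ncard := by
    by_cases h : (H.connectedComponentMk v0).supp ⊆ B
    · exact hK.trans (Set.ncard_le_ncard h (Set.toFinite _))
    · rw [Set.not_subset] at h
      obtain ⟨v, hv, hvB⟩ := h
      have h1 : H.Reachable v0 v := by
        rw [ConnectedComponent.mem_supp_iff, ConnectedComponent.eq] at hv
        exact hv.symm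
      obtain ⟨p, hp⟩ := h1.exists_isPath
      have h2 : N < p.length := by
        by_contra h2
        exact hvB ⟨p, not_lt.1 h2⟩
      have h3 : (Finset.range N).card ≤ B.toFinset.card := by
        apply Finset.card_le_card_of_injOn (fun i => p.getVert i)
        · intro i hi
          rw [Finset.mem_coe, Finset.mem_range] at hi
          rw [Finset.mem_coe, Set.mem_toFinset]
          refine ⟨p.take i, ?_⟩
          rw [Walk.take_length]
          omega
        · intro i hi j hj hij
          rw [Finset.mem_coe, Finset.mem_range] at hi hj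
          apply hp.getVert_injOn _ _ hij
          · rw [Set.mem_ofPred_eq]
            omega
          · rw [Set.mem_ofPred_eq]
            omega
      rw [Finset.card_range] at h3
      rwa [Set.ncard_eq_toFinset_card']
  rw [Set.ncard_eq_toFinset_card'] at key
  obtain ⟨S, hS, hSc⟩ := Finset.exists_subset_card_eq key
  have hSB : ∀ v ∈ S, ∃ p : H.Walk v0 v, p.length ≤ N := by
    intro v hv
    have := hS hv
    rw [Set.mem_toFinset] at this
    exact this
  refine ⟨S, hSc, fun v hv => ?_, fun a ha b hb => ?_⟩
  · obtain ⟨p, _⟩ := hSB v hv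
    rw [ConnectedComponent.mem_supp_iff, ConnectedComponent.eq]
    exact p.reachable.symm
  · obtain ⟨p, hp⟩ := hSB a ha
    obtain ⟨q, hq⟩ := hSB b hb
    refine ⟨p.reverse.append q, ?_⟩
    rw [Walk.length_append, Walk.length_reverse]
    omega

end Pool.Agent.P3C
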