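import Pool.Agent.P3C.Trans
import Pool.Agent.P3C.Paths

/-!
# The core: an independent set `X`, an exceptional set `Y`, the rest paths and long cycles whose
inner vertices have exactly one neighbour in `X`
-/

set_option autoImplicit false

namespace Pool.Agent.P3C

open SimpleGraph

variable {V : Type} [Finite V]

/-- the graph with the vertices of `S` isolated -/
def off (G : SimpleGraph V) (S : Set V) : SimpleGraph V where
  Adj u v := G.Adj u v ∧ u ∉ S ∧ v ∉ S
  symm := ⟨fun _ _ h => ⟨h.1.symm, h.2.2, h.2.1⟩⟩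
  loopless := ⟨fun v h => G.loopless.irrefl v h.1⟩

lemma off_le (G : SimpleGraph V) (S : Set V) : off G S ≤ G := fun _ _ h => h.1

/-- an isolated vertex reaches only itself -/
lemma reach_isolated {H : SimpleGraph V} {a b : V} (ha : ∀ u, ¬ H.Adj a u)
    (hab : H.Reachable a b) : b = a := by
  have h := reach_closed (H := H) (S := {a}) (a := a) (b := b)
    (fun v hv w hw => by
      rw [Set.mem_singleton_iff] at hv
      subst hv
      exact absurd hw (ha w)) rfl hab
  exact h

/-- The hypotheses of the core theorem. `w` gives the unique neighbour in `X` of an inner vertex. -/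
structure Setup (V : Type) where
  G : SimpleGraph V
  D : ℕ
  k : ℕ
  N : ℕ
  m : ℕ
  X : Set V
  Y : Set V
  w : V → V
  hD : ∀ v, (G.neighborSet v).ncard ≤ D
  hN : m + 2 ≤ N
  hm : 16 * (D * ((k + k * D + 2) * (D * D))) + 4 ≤ m
  hg : ∀ (u : V) (c : G.Walk u u), c.IsCycle → k + k * D * N + N + 2 < c.length
  hX : ∀ u ∈ X, ∀ v ∈ X, ¬ G.Adj u v
  hXY : ∀ u ∈ X, u ∉ Y
  hY : ∀ y0 : V, {y | y ∈ Y ∧ ∃ p : G.Walk y0 y, p.length ≤ k * (N + 1)}.ncard ≤ k
  hd : ∀ v, v ∉ Y → ((off G X).neighborSet v).ncard ≤ 2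
  hw : ∀ v, v ∉ Y → ((off G X).neighborSet v).ncard = 2 →
    w v ∈ X ∧ G.Adj v (w v) ∧ ∀ x ∈ X, G.Adj v x → x = w v

namespace Setup

variable (s : Setup V)

/-- the graph outside `X` -/
def H1 : SimpleGraph V := off s.G s.X

/-- the graph outside `X ∪ Y`: paths and cycles -/
def H2 : SimpleGraph V := off s.G (s.X ∪ s.Y)

/-- inner vertices -/
def Int (v : V) : Prop := v ∉ s.Y ∧ (s.H1.neighborSet v).ncard = 2

/-- vertices in long components of `H2` -/
def Lg (v : V) : Prop := s.N ≤ (s.H2.connectedComponentMk v).supp.ncard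

/-- the graph outside `X` and the long components -/
def Hs : SimpleGraph V := off s.G (s.X ∪ {v | s.Lg v})

/-- partners: adjacent inner vertices, or two other vertices joined in `Hs` -/
def Pt (z z' : V) : Prop :=
  (s.Int z ∧ s.Int z' ∧ s.H1.Adj z z') ∨
  (z ≠ z' ∧ ¬ s.Int z ∧ ¬ s.Int z' ∧ s.Hs.Reachable z z')

/-- two inner vertices whose `X`-neighbours are in conflict -/
def Cf (v v' : V) : Prop :=
  s.Int v ∧ s.Int v' ∧ ∃ z z', s.G.Adj (s.w v) z ∧ s.Pt z z' ∧ s.G.Adj z' (s.w v')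

lemma H2_le : s.H2 ≤ s.H1 := fun _ _ h => ⟨h.1, fun h' => h.2.1 (Or.inl h'), fun h' => h.2.2 (Or.inl h')⟩

lemma H1_le : s.H1 ≤ s.G := off_le _ _

lemma not_int {v : V} (hv : v ∉ s.Y) (h : ¬ s.Int v) : (s.H1.neighborSet v).ncard ≤ 1 := by
  have h1 := s.hd v hv
  have h2 : (s.H1.neighborSet v).ncard ≤ 2 := h1
  have h3 : (s.H1.neighborSet v).ncard ≠ 2 := fun h4 => h ⟨hv, h4⟩
  omega

lemma H2_sub (v : V) : s.H2.neighborSet v ⊆ s.H1.neighborSet v := fun _ h => s.H2_le h

lemma not_int2 {v : V} (hv : v ∉ s.Y) (h : ¬ s.Int v) : (s.H2.neighborSet v).ncard ≤ 1 :=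
  (Set.ncard_le_ncard (s.H2_sub v) (Set.toFinite _)).trans (s.not_int hv h)

lemma H2_deg (v : V) : (s.H2.neighborSet v).ncard ≤ 2 := by
  by_cases hv : v ∈ s.Y
  · have h1 : s.H2.neighborSet v = ∅ := by
      ext u
      exact ⟨fun h => absurd (Or.inr hv) h.2.1, fun h => absurd h (Set.notMem_empty u)⟩
    rw [h1, Set.ncard_empty]
    omega
  · exact (Set.ncard_le_ncard (s.H2_sub v) (Set.toFinite _)).trans (s.hd v hv)

/-- a vertex next to `Y` has at most one neighbour in `H2` -/
lemma H2_next {e y : V} (he : e ∉ s.Y) (hy : y ∈ s.Y) (hey : s.H1.Adj e y) :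
    (s.H2.neighborSet e).ncard ≤ 1 := by
  have h1 : s.H2.neighborSet e ⊂ s.H1.neighborSet e := by
    refine ⟨s.H2_sub e, fun h => ?_⟩
    have h2 : s.H2.Adj e y := h hey
    exact h2.2.2 (Or.inr hy)
  have h2 := Set.ncard_lt_ncard h1 (Set.toFinite _)
  have h3 : (s.H1.neighborSet e).ncard ≤ 2 := s.hd e he
  omega

lemma int_off {v : V} (h : s.Int v) : v ∉ s.X := by
  intro hv
  have h1 : s.H1.neighborSet v = ∅ := by
    ext u
    exact ⟨fun h => absurd hv h.2.1, fun h => absurd h (Set.notMem_empty u)⟩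
  have h2 := h.2
  rw [h1, Set.ncard_empty] at h2
  omega

lemma lg_off {v : V} (h : s.Lg v) : v ∉ s.X ∪ s.Y := by
  intro hv
  have h1 : (s.H2.connectedComponentMk v).supp ⊆ {v} := by
    intro u hu
    rw [ConnectedComponent.mem_supp_iff, ConnectedComponent.eq] at hu
    exact reach_isolated (H := s.H2) (fun x hx => hx.2.1 hv) hu.symm
  have h2 := Set.ncard_le_ncard h1 (Set.toFinite _)
  rw [Set.ncard_singleton] at h2
  have h3 : s.N ≤ (s.H2.connectedComponentMk v).supp.ncard := h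
  have := s.hN
  omega

lemma lg_congr {u v : V} (h : s.H2.Reachable u v) : s.Lg u ↔ s.Lg v := by
  unfold Lg
  rw [ConnectedComponent.eq.2 h]

/-- short walks in short components -/
lemma short_walk {u v : V} (hu : ¬ s.Lg u) (h : s.H2.Reachable u v) :
    ∃ p : s.G.Walk u v, p.length + 2 ≤ s.N := by
  classical
  obtain ⟨p, hp⟩ := h.exists_isPath
  refine ⟨(p.mapLe s.H2_le).mapLe s.H1_le, ?_⟩
  rw [Walk.mapLe, Walk.length_map, Walk.mapLe, Walk.length_map]
  have h5 : (p.support.toFinset : Set V) ⊆ (s.H2.connectedComponentMk u).supp := by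
    intro x hx
    rw [Finset.mem_coe, List.mem_toFinset] at hx
    rw [ConnectedComponent.mem_supp_iff, ConnectedComponent.eq]
    exact (p.takeUntil x hx).reachable.symm
  have h6 := Set.ncard_le_ncard h5 (Set.toFinite _)
  rw [Set.ncard_coe_finset, List.toFinset_card_of_nodup hp.support_nodup,
    Walk.length_support] at h6
  have h7 : (s.H2.connectedComponentMk u).supp.ncard < s.N := not_le.1 hu
  omega

lemma hs_ne {u v : V} (h : s.Hs.Reachable u v) (huv : u ≠ v) : ¬ s.Lg u ∧ u ∉ s.X := by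
  by_contra hcon
  apply huv
  refine (reach_isolated (fun x hx => hcon ?_) h).symm
  exact ⟨fun h => hx.2.1 (Or.inr h), fun h => hx.2.1 (Or.inl h)⟩

/-- the exceptional vertices near `y0` -/
def Bj (y0 : V) (j : ℕ) : Set V := {y | y ∈ s.Y ∧ ∃ p : s.G.Walk y0 y, p.length ≤ j * (s.N + 1)}

lemma bj_mono (y0 : V) (j : ℕ) : s.Bj y0 j ⊆ s.Bj y0 (j + 1) := by
  rintro y ⟨hy, p, hp⟩
  exact ⟨hy, p, hp.trans (Nat.mul_le_mul_right _ (Nat.le_succ j))⟩

/-- a stable radius -/
lemma stable {y0 : V} (hy0 : y0 ∈ s.Y) : ∃ j < s.k, s.Bj y0 (j + 1) ⊆ s.Bj y0 j := by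
  by_contra hcon
  push Not at hcon
  have h1 : ∀ j ≤ s.k, j + 1 ≤ (s.Bj y0 j).ncard := by
    intro j
    induction j with
    | zero =>
      intro _
      rw [zero_add, Nat.one_le_iff_ne_zero, ← Nat.pos_iff_ne_zero, Set.ncard_pos (Set.toFinite _)]
      exact ⟨y0, hy0, Walk.nil, by rw [Walk.length_nil]; exact Nat.zero_le _⟩
    | succ j ih =>
      intro hj
      have h2 := ih (by omega)
      have h3 : (s.Bj y0 j).ncard < (s.Bj y0 (j + 1)).ncard :=
        Set.ncard_lt_ncard ⟨s.bj_mono y0 j, hcon j (by omega)⟩ (Set.toFinite _)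
      omega
  have h2 := h1 s.k le_rfl
  have h3 : (s.Bj y0 s.k).ncard ≤ s.k := s.hY y0
  omega

/-- The structure of a component of `Hs` which meets `Y`. -/
lemma comp_struct {y0 : V} (hy0 : y0 ∈ s.Y) : ∃ T : Set V, T ⊆ s.Y ∧ T.ncard ≤ s.k ∧
    ∀ v, s.Hs.Reachable y0 v → (v ∈ s.Y → v ∈ T) ∧
      (v ∉ s.Y → ∃ e, s.H2.Reachable v e ∧ e ∉ s.Y ∧ ∃ y ∈ T, s.H1.Adj e y) := by
  obtain ⟨j, hj, hst⟩ := s.stable hy0
  refine ⟨s.Bj y0 j, fun y hy => hy.1, ?_, ?_⟩
  · refine le_trans (Set.ncard_le_ncard ?_ (Set.toFinite _)) (s.hY y0)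
    rintro y ⟨hy, p, hp⟩
    exact ⟨hy, p, hp.trans (Nat.mul_le_mul_right _ hj.le)⟩
  · intro v hv
    have key : v ∈ {v | (v ∈ s.Y → v ∈ s.Bj y0 j) ∧
        (v ∉ s.Y → ∃ e, s.H2.Reachable v e ∧ e ∉ s.Y ∧ ∃ y ∈ s.Bj y0 j, s.H1.Adj e y)} := by
      refine reach_closed (H := s.Hs) (a := y0) ?_ ?_ hv
      · rintro v ⟨hvY, hvN⟩ u huv
        have hvu : s.G.Adj v u := huv.1
        have hvX : v ∉ s.X := fun h => huv.2.1 (Or.inl h)
        have huX : u ∉ s.X := fun h => huv.2.2 (Or.inl h)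
        by_cases hv' : v ∈ s.Y
        · refine ⟨fun hu' => ?_, fun hu' => ?_⟩
          · obtain ⟨_, p, hp⟩ := hvY hv'
            apply hst
            refine ⟨hu', p.concat hvu, ?_⟩
            rw [Walk.length_concat]
            rw [Nat.add_mul, Nat.one_mul]
            omega
          · exact ⟨u, Reachable.refl _, hu', v, hvY hv', hvu.symm, huX, hvX⟩
        · obtain ⟨e, hve, he, y, hy, hey⟩ := hvN hv'
          refine ⟨fun hu' => ?_, fun hu' => ?_⟩
          · obtain ⟨_, p, hp⟩ := hy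
            have hvL : ¬ s.Lg v := fun h => huv.2.1 (Or.inr h)
            obtain ⟨q, hq⟩ := s.short_walk hvL hve
            apply hst
            refine ⟨hu', (p.concat hey.1.symm).append (q.reverse.concat hvu), ?_⟩
            rw [Walk.length_append, Walk.length_concat, Walk.length_concat, Walk.length_reverse,
              Nat.add_mul, Nat.one_mul]
            omega
          · have h1 : s.H2.Adj u v := by
              refine ⟨hvu.symm, ?_, ?_⟩
              · rintro (h | h)
                · exact huX h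
                · exact hu' h
              · rintro (h | h)
                · exact hvX h
                · exact hv' h
            exact ⟨e, h1.reachable.trans hve, he, y, hy, hey⟩
      · refine ⟨fun _ => ⟨hy0, Walk.nil, by rw [Walk.length_nil]; exact Nat.zero_le _⟩, fun h => ?_⟩
        exact absurd hy0 h
    exact key

/-- a component of `Hs` without exceptional vertices is a component of `H2` -/
lemma comp_noY {a : V} (h : ∀ v, s.Hs.Reachable a v → v ∉ s.Y) {v : V}
    (hv : s.Hs.Reachable a v) : s.H2.Reachable a v := by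
  have key : v ∈ {v | s.Hs.Reachable a v ∧ s.H2.Reachable a v} := by
    refine reach_closed (H := s.Hs) (a := a) ?_ ⟨Reachable.refl _, Reachable.refl _⟩ hv
    rintro x ⟨hx1, hx2⟩ y hxy
    have hy1 : s.Hs.Reachable a y := hx1.trans hxy.reachable
    refine ⟨hy1, hx2.trans (Adj.reachable (?_ : s.H2.Adj x y))⟩
    refine ⟨hxy.1, ?_, ?_⟩
    · rintro (h' | h')
      · exact hxy.2.1 (Or.inl h')
      · exact h x hx1 h'
    · rintro (h' | h')
      · exact hxy.2.2 (Or.inl h')
      · exact h y hy1 h'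
  exact key.2

end Setup

end Pool.Agent.P3C
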