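import Pool.Agent.P3C.Core

/-!
# Counting in the core
-/

set_option autoImplicit false

namespace Pool.Agent.P3C

open SimpleGraph

variable {V : Type} [Finite V]

lemma union_card {E : Set V} {T : V → V → Prop} {a b : ℕ} (hE : E.ncard ≤ a)
    (hT : ∀ e ∈ E, {v | T e v}.ncard ≤ b) : {v | ∃ e ∈ E, T e v}.ncard ≤ a * b := by
  classical
  cases nonempty_fintype V
  have h1 : {v | ∃ e ∈ E, T e v}.toFinset ⊆ (E.toFinset).biUnion fun e => {v | T e v}.toFinset := by
    intro v hv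
    rw [Set.mem_toFinset] at hv
    obtain ⟨e, he, hev⟩ := hv
    rw [Finset.mem_biUnion]
    refine ⟨e, ?_, ?_⟩
    · rw [Set.mem_toFinset]
      exact he
    · rw [Set.mem_toFinset]
      exact hev
  rw [Set.ncard_eq_toFinset_card'] at hE ⊢
  refine (Finset.card_le_card h1).trans ((Finset.card_biUnion_le_card_mul _ _ b ?_).trans
    (Nat.mul_le_mul_right _ hE))
  intro e he
  rw [← Set.ncard_eq_toFinset_card']
  rw [Set.mem_toFinset] at he
  exact hT e he

/-- a relation with at most `a` successors followed by one with at most `b` -/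
lemma comp_card {R T : V → V → Prop} {a b : ℕ} (x : V) (hR : {y | R x y}.ncard ≤ a)
    (hT : ∀ y, {z | T y z}.ncard ≤ b) : {z | ∃ y, R x y ∧ T y z}.ncard ≤ a * b :=
  union_card (E := {y | R x y}) hR (fun e _ => hT e)

namespace Setup

variable (s : Setup V)

lemma hs_lg {v y : V} (h : s.Hs.Reachable v y) (hv : v ∉ s.Y) (hy : y ∈ s.Y) : ¬ s.Lg v :=
  (s.hs_ne h (fun h' => hv (h' ▸ hy))).1

/-- components of `Hs` are bounded -/
lemma comp_bound (a : V) :
    {v | s.Hs.Reachable a v}.ncard ≤ s.k + s.k * s.D * s.N + s.N := by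
  by_cases hY : ∃ y0 ∈ s.Y, s.Hs.Reachable a y0
  · obtain ⟨y0, hy0, hay0⟩ := hY
    obtain ⟨T, hTY, hTk, hT⟩ := s.comp_struct hy0
    have h1 : {v | s.Hs.Reachable a v} ⊆ T ∪ {v | ∃ e ∈ {e | ∃ y ∈ T, s.G.Adj y e},
        s.H2.Reachable v e ∧ ¬ s.Lg e} := by
      intro v hv
      have hv' : s.Hs.Reachable y0 v := hay0.symm.trans hv
      by_cases hvY : v ∈ s.Y
      · exact Or.inl ((hT v hv').1 hvY)
      · right
        obtain ⟨e, hve, _, y, hy, hey⟩ := (hT v hv').2 hvY
        refine ⟨e, ⟨y, hy, hey.1.symm⟩, hve, ?_⟩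
        rw [← s.lg_congr hve]
        exact s.hs_lg hv'.symm hvY hy0
    have h2 : {e | ∃ y ∈ T, s.G.Adj y e}.ncard ≤ s.k * s.D :=
      union_card hTk (fun y _ => s.hD y)
    have h3 : {v | ∃ e ∈ {e | ∃ y ∈ T, s.G.Adj y e}, s.H2.Reachable v e ∧ ¬ s.Lg e}.ncard ≤
        s.k * s.D * s.N := by
      apply union_card h2
      intro e _
      by_cases he : s.Lg e
      · have : {v | s.H2.Reachable v e ∧ ¬ s.Lg e} = ∅ := by
          ext v
          exact ⟨fun h => absurd he h.2, fun h => absurd h (Set.notMem_empty v)⟩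
        rw [this, Set.ncard_empty]
        exact Nat.zero_le _
      · have h4 : {v | s.H2.Reachable v e ∧ ¬ s.Lg e} ⊆ (s.H2.connectedComponentMk e).supp := by
          intro v hv
          rw [ConnectedComponent.mem_supp_iff, ConnectedComponent.eq]
          exact hv.1
        have h5 := Set.ncard_le_ncard h4 (Set.toFinite _)
        have h6 : (s.H2.connectedComponentMk e).supp.ncard < s.N := not_le.1 he
        omega
    have h4 := (Set.ncard_le_ncard h1 (Set.toFinite _)).trans (Set.ncard_union_le _ _)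
    omega
  · push Not at hY
    by_cases ha : s.Lg a
    · have h1 : {v | s.Hs.Reachable a v} ⊆ {a} := by
        intro v hv
        by_contra hne
        exact (s.hs_ne hv (fun h => hne h.symm)).1 ha
      have h2 := Set.ncard_le_ncard h1 (Set.toFinite _)
      rw [Set.ncard_singleton] at h2
      have := s.hN
      omega
    · have h1 : {v | s.Hs.Reachable a v} ⊆ (s.H2.connectedComponentMk a).supp := by
        intro v hv
        rw [ConnectedComponent.mem_supp_iff, ConnectedComponent.eq]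
        refine (s.comp_noY (fun x hx hx' => ?_) hv).symm
        exact hY x hx' hx
      have h2 := Set.ncard_le_ncard h1 (Set.toFinite _)
      have h3 : (s.H2.connectedComponentMk a).supp.ncard < s.N := not_le.1 ha
      omega

lemma three_ends {a b c : V} (ha : a ∉ s.Y) (hb : b ∉ s.Y) (hc : c ∉ s.Y) (ha' : ¬ s.Int a)
    (hb' : ¬ s.Int b) (hc' : ¬ s.Int c) (hab : s.H2.Reachable a b) (hac : s.H2.Reachable a c)
    (h1 : a ≠ b) (h2 : a ≠ c) : b = c :=
  third_end s.H2_deg (s.not_int2 ha ha') (s.not_int2 hb hb') (s.not_int2 hc hc') hab hac h1 h2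

/-- the number of non-inner vertices in a component of `Hs` -/
lemma ends_bound (a : V) :
    {z | s.Hs.Reachable a z ∧ ¬ s.Int z}.ncard ≤ s.k + s.k * s.D + 2 := by
  classical
  by_cases hY : ∃ y0 ∈ s.Y, s.Hs.Reachable a y0
  · obtain ⟨y0, hy0, hay0⟩ := hY
    obtain ⟨T, hTY, hTk, hT⟩ := s.comp_struct hy0
    set E : Set V := {e | ∃ y ∈ T, s.G.Adj y e} with hE
    set Q : Set V := {z | s.Hs.Reachable a z ∧ ¬ s.Int z ∧ z ∉ s.Y} with hQ
    have h1 : {z | s.Hs.Reachable a z ∧ ¬ s.Int z} ⊆ T ∪ Q := by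
      rintro z ⟨hz1, hz2⟩
      by_cases hzY : z ∈ s.Y
      · exact Or.inl ((hT z (hay0.symm.trans hz1)).1 hzY)
      · exact Or.inr ⟨hz1, hz2, hzY⟩
    have h2 : E.ncard ≤ s.k * s.D := union_card hTk (fun y _ => s.hD y)
    have hex : ∀ z ∈ Q, ∃ e, s.H2.Reachable z e ∧ e ∉ s.Y ∧ ∃ y ∈ T, s.H1.Adj e y := by
      rintro z ⟨hz1, hz2, hz3⟩
      exact (hT z (hay0.symm.trans hz1)).2 hz3
    choose! f hf using hex
    have h3 : Q.ncard ≤ E.ncard := by
      apply Set.ncard_le_ncard_of_injOn f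
      · intro z hz
        obtain ⟨_, _, y, hy, hey⟩ := hf z hz
        exact ⟨y, hy, hey.1.symm⟩
      · intro z1 hz1 z2 hz2 hfz
        have g1 := hf z1 hz1
        have g2 := hf z2 hz2
        rw [← hfz] at g2
        obtain ⟨y, hy, hey⟩ := g1.2.2
        have hed : (s.H2.neighborSet (f z1)).ncard ≤ 1 := s.H2_next g1.2.1 (hTY hy) hey
        have hiso : ∀ z ∈ Q, z = f z1 → ∀ u, ¬ s.H2.Adj (f z1) u := by
          intro z hz hze u hu
          have h4 : (s.H1.neighborSet (f z1)).ncard ≤ 1 := by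
            rw [← hze]
            exact s.not_int hz.2.2 hz.2.1
          rw [Set.ncard_le_one_iff] at h4
          have h5 := h4 (a := u) (b := y) (s.H2_le hu) hey
          exact hu.2.2 (Or.inr (h5 ▸ hTY hy))
        by_cases c1 : z1 = f z1
        · have h4 := reach_isolated (hiso z1 hz1 c1) g2.1.symm
          rw [h4]
          exact c1
        · by_cases c2 : z2 = f z1
          · have h4 := reach_isolated (hiso z2 hz2 c2) g1.1.symm
            exact absurd h4 c1
          · exact third_end s.H2_deg hed (s.not_int2 hz1.2.2 hz1.2.1)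
              (s.not_int2 hz2.2.2 hz2.2.1) g1.1.symm g2.1.symm (fun h => c1 h.symm)
              (fun h => c2 h.symm)
    have h4 := (Set.ncard_le_ncard h1 (Set.toFinite _)).trans (Set.ncard_union_le _ _)
    omega
  · push Not at hY
    refine le_trans (?_ : _ ≤ 2) (by omega)
    by_contra hcon
    push Not at hcon
    rw [Set.two_lt_ncard_iff (Set.toFinite _)] at hcon
    obtain ⟨x, y, z, hx, hy, hz, hxy, hxz, hyz⟩ := hcon
    have hr : ∀ v, s.Hs.Reachable a v → s.H2.Reachable a v := fun v hv =>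
      s.comp_noY (fun u hu hu' => hY u hu' hu) hv
    apply hyz
    exact s.three_ends (fun h => hY x h hx.1) (fun h => hY y h hy.1) (fun h => hY z h hz.1)
      hx.2 hy.2 hz.2 ((hr x hx.1).symm.trans (hr y hy.1)) ((hr x hx.1).symm.trans (hr z hz.1))
      hxy hxz

lemma pt_card (z : V) : {z' | s.Pt z z'}.ncard ≤ s.k + s.k * s.D + 2 := by
  by_cases hz : s.Int z
  · refine le_trans (Set.ncard_le_ncard (t := s.H1.neighborSet z) ?_ (Set.toFinite _))
      (le_trans (s.hd z hz.1) (by omega))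
    rintro z' (h | h)
    · exact h.2.2
    · exact absurd hz h.2.1
  · refine le_trans (Set.ncard_le_ncard ?_ (Set.toFinite _)) (s.ends_bound z)
    rintro z' (h | h)
    · exact absurd h.1 hz
    · exact ⟨h.2.2.2, h.2.2.1⟩

lemma adj_w {v : V} (h : s.Int v) : s.G.Adj v (s.w v) := (s.hw v h.1 h.2).2.1

lemma pt_symm {z z' : V} (h : s.Pt z z') : s.Pt z' z := by
  rcases h with h | h
  · exact Or.inl ⟨h.2.1, h.1, h.2.2.symm⟩
  · exact Or.inr ⟨h.1.symm, h.2.2.1, h.2.1, h.2.2.2.symm⟩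

lemma cf_symm {v v' : V} (h : s.Cf v v') : s.Cf v' v := by
  obtain ⟨h1, h2, z, z', h3, h4, h5⟩ := h
  exact ⟨h2, h1, z', z, h5.symm, s.pt_symm h4, h3.symm⟩

lemma cf_card (v : V) :
    {v' | s.Cf v v'}.ncard ≤ s.D * ((s.k + s.k * s.D + 2) * (s.D * s.D)) := by
  have h1 : {v' | ∃ z, s.G.Adj (s.w v) z ∧ ∃ z', s.Pt z z' ∧
      ∃ r, s.G.Adj z' r ∧ s.G.Adj r v'}.ncard ≤ s.D * ((s.k + s.k * s.D + 2) * (s.D * s.D)) :=
    comp_card (T := fun z v => ∃ z', s.Pt z z' ∧ ∃ r, s.G.Adj z' r ∧ s.G.Adj r v) (s.w v)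
      (s.hD (s.w v))
      (fun z => comp_card (T := fun z' v => ∃ r, s.G.Adj z' r ∧ s.G.Adj r v) z (s.pt_card z)
        (fun z' => comp_card z' (s.hD z') (fun r => s.hD r)))
  have h2 : {v' | s.Cf v v'} ⊆ {v' | ∃ z, s.G.Adj (s.w v) z ∧ ∃ z', s.Pt z z' ∧
      ∃ r, s.G.Adj z' r ∧ s.G.Adj r v'} := by
    rintro v' ⟨_, h3, z, z', h4, h5, h6⟩
    exact ⟨z, h4, z', h5, s.w v', h6, (s.adj_w h3).symm⟩
  exact (Set.ncard_le_ncard h2 (Set.toFinite _)).trans h1

/-- inner vertices of a large component -/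
lemma inner (K : s.H2.ConnectedComponent) (hK : s.N ≤ K.supp.ncard) :
    ∃ g : Fin s.m → V, Function.Injective g ∧ ∀ i, g i ∈ K.supp ∧ s.Int (g i) := by
  classical
  cases nonempty_fintype V
  have hKY : ∀ v ∈ K.supp, v ∉ s.Y := by
    intro v hv h
    have h1 : s.Lg v := by
      unfold Lg
      rw [ConnectedComponent.mem_supp_iff] at hv
      rw [hv]
      exact hK
    exact s.lg_off h1 (Or.inr h)
  have h1 : (K.supp ∩ {v | ¬ s.Int v}).ncard ≤ 2 := by
    by_contra hcon
    push Not at hcon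
    rw [Set.two_lt_ncard_iff (Set.toFinite _)] at hcon
    obtain ⟨x, y, z, hx, hy, hz, hxy, hxz, hyz⟩ := hcon
    have hr : ∀ v ∈ K.supp, s.H2.Reachable x v := by
      intro v hv
      have h2 := hx.1
      rw [ConnectedComponent.mem_supp_iff] at hv h2
      exact ConnectedComponent.eq.1 (h2.trans hv.symm)
    exact hyz (s.three_ends (hKY x hx.1) (hKY y hy.1) (hKY z hz.1) hx.2 hy.2 hz.2
      (hr y hy.1) (hr z hz.1) hxy hxz)
  have h2 := Set.ncard_inter_add_ncard_sdiff_eq_ncard K.supp {v | ¬ s.Int v} (Set.toFinite _)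
  have h3 : s.m ≤ (K.supp \ {v | ¬ s.Int v}).ncard := by
    have := s.hN
    omega
  rw [Set.ncard_eq_toFinset_card'] at h3
  refine ⟨fun i => ((K.supp \ {v | ¬ s.Int v}).toFinset.equivFin.symm (Fin.castLE h3 i)).1, ?_, ?_⟩
  · intro i j hij
    exact Fin.castLE_injective h3 (Equiv.injective _ (Subtype.ext hij))
  · intro i
    have h5 := ((K.supp \ {v | ¬ s.Int v}).toFinset.equivFin.symm (Fin.castLE h3 i)).2
    rw [Set.mem_toFinset] at h5
    exact ⟨h5.1, by
      by_contra h6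
      exact h5.2 h6⟩

/-- what we need of the set `R` of recoloured vertices of `X` -/
structure Good (R : Set V) : Prop where
  sub : ∀ r ∈ R, r ∈ s.X
  cut : ∀ K : s.H2.ConnectedComponent, s.N ≤ K.supp.ncard → ∃ v ∈ K.supp, s.Int v ∧ s.w v ∈ R
  cf : ∀ r ∈ R, ∀ r' ∈ R, r ≠ r' → ∀ z z', s.G.Adj r z → s.Pt z z' → ¬ s.G.Adj z' r'

lemma exists_good : ∃ R : Set V, s.Good R := by
  classical
  cases nonempty_fintype V
  let I := {K : s.H2.ConnectedComponent // s.N ≤ K.supp.ncard}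
  have hfin : Finite I := inferInstance
  cases nonempty_fintype I
  choose g hginj hg using fun K : I => s.inner K.1 K.2
  have hginj' : ∀ a b : I × Fin s.m, g a.1 a.2 = g b.1 b.2 → a = b := by
    rintro ⟨K, i⟩ ⟨K', i'⟩ h
    have h1 := (hg K i).1
    have h2 := (hg K' i').1
    simp only at h
    rw [← h] at h2
    rw [ConnectedComponent.mem_supp_iff] at h1 h2
    have h3 : K = K' := Subtype.ext (h1.symm.trans h2)
    subst h3
    rw [hginj K h]
  have hcount : ∀ a : I × Fin s.m, (Finset.univ.filter fun b : I × Fin s.m =>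
      s.Cf (g a.1 a.2) (g b.1 b.2)).card ≤ s.D * ((s.k + s.k * s.D + 2) * (s.D * s.D)) := by
    intro a
    refine le_trans ?_ (s.cf_card (g a.1 a.2))
    rw [Set.ncard_eq_toFinset_card']
    apply Finset.card_le_card_of_injOn (fun b => g b.1 b.2)
    · intro b hb
      rw [Finset.mem_coe, Finset.mem_filter] at hb
      rw [Finset.mem_coe, Set.mem_toFinset]
      exact hb.2
    · intro b _ c _ hbc
      exact hginj' b c hbc
  obtain ⟨f, hf⟩ := transversal s.m _ s.hm
    (fun a b : I × Fin s.m => s.Cf (g a.1 a.2) (g b.1 b.2)) hcount (by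
      intro a
      refine le_trans (le_of_eq ?_) (hcount a)
      congr 1
      ext b
      rw [Finset.mem_filter, Finset.mem_filter]
      exact ⟨fun h => ⟨h.1, s.cf_symm h.2⟩, fun h => ⟨h.1, s.cf_symm h.2⟩⟩)
  refine ⟨{r | ∃ K : I, r = s.w (g K (f K))}, ?_, ?_, ?_⟩
  · rintro r ⟨K, rfl⟩
    exact (s.hw _ (hg K (f K)).2.1 (hg K (f K)).2.2).1
  · intro K hK
    exact ⟨g ⟨K, hK⟩ (f ⟨K, hK⟩), (hg ⟨K, hK⟩ _).1, (hg ⟨K, hK⟩ _).2, ⟨K, hK⟩, rfl⟩
  · rintro r ⟨K, rfl⟩ r' ⟨K', rfl⟩ hne z z' h1 h2 h3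
    have hKK : K ≠ K' := by
      rintro rfl
      exact hne rfl
    exact hf K K' hKK ⟨(hg K _).2, (hg K' _).2, z, z', h1, h2, h3⟩

end Setup

end Pool.Agent.P3C
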