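import Pool.Agent.P3C.Colour

/-!
# Three colours for the core, and the reduction to it
-/

set_option autoImplicit false

namespace Pool.Agent.P3C

open SimpleGraph

variable {V : Type} [Finite V]

namespace Setup

variable (s : Setup V)

theorem colorable : s.G.Colorable 3 := by
  classical
  obtain ⟨R, hR⟩ := s.exists_good
  obtain ⟨col⟩ := (F_acyclic hR).colorable_two
  -- the base point of a piece
  let base : V → V := fun v => if h : ∃ e, s.Forced R e ∧ (s.F R).Reachable v e then h.choose else v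
  let third : V → Prop := fun v =>
    if ∃ e, s.Forced R e ∧ (s.F R).Reachable v e then col v = col (base v) else col v = 0
  have hthird : ∀ u v, (s.F R).Adj u v → (third u ↔ ¬ third v) := by
    intro u v huv
    have h1 : ∀ e, (s.F R).Reachable u e ↔ (s.F R).Reachable v e := fun e =>
      ⟨fun h => huv.reachable.symm.trans h, fun h => huv.reachable.trans h⟩
    have hcol : col u ≠ col v := col.valid huv
    have key : ∀ a b c : Fin 2, a ≠ b → (a = c ↔ ¬ b = c) := by decide
    by_cases h : ∃ e, s.Forced R e ∧ (s.F R).Reachable u e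
    · have h' : ∃ e, s.Forced R e ∧ (s.F R).Reachable v e := by
        obtain ⟨e, he, hue⟩ := h
        exact ⟨e, he, (h1 e).1 hue⟩
      have h2 : base u = base v := by
        simp only [base, dif_pos h, dif_pos h']
        apply forced_unique hR h.choose_spec.1 h'.choose_spec.1
        exact h.choose_spec.2.symm.trans ((h1 _).2 h'.choose_spec.2)
      simp only [third, if_pos h, if_pos h', h2]
      exact key _ _ _ hcol
    · have h' : ¬ ∃ e, s.Forced R e ∧ (s.F R).Reachable v e := by
        rintro ⟨e, he, hve⟩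
        exact h ⟨e, he, (h1 e).2 hve⟩
      simp only [third, if_neg h, if_neg h']
      exact key _ _ _ hcol
  have hforced : ∀ e, s.Forced R e → third e := by
    intro e he
    have h : ∃ e', s.Forced R e' ∧ (s.F R).Reachable e e' := ⟨e, he, Reachable.refl _⟩
    have h2 : base e = e := by
      simp only [base, dif_pos h]
      exact (forced_unique hR he h.choose_spec.1 h.choose_spec.2).symm
    simp only [third, if_pos h, h2]
  let c : V → Fin 3 := fun v =>
    if v ∈ s.X ∧ v ∉ R then 0 else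
    if v ∈ R then 1 else
    if v ∈ s.Zs R then 0 else
    if third v then 2 else 1
  have c1 : ∀ v, v ∈ s.X → v ∉ R → c v = 0 := by
    intro v h1 h2
    simp only [c, if_pos (And.intro h1 h2)]
  have c2 : ∀ v, v ∈ R → c v = 1 := by
    intro v h1
    have h2 : ¬ (v ∈ s.X ∧ v ∉ R) := fun h => h.2 h1
    simp only [c, if_neg h2, if_pos h1]
  have out1 : ∀ v, v ∉ s.X → ¬ (v ∈ s.X ∧ v ∉ R) := fun v h h' => h h'.1
  have out2 : ∀ v, v ∉ s.X → v ∉ R := fun v h h' => h (hR.sub v h')
  have c3 : ∀ v, v ∈ s.Zs R → c v = 0 := by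
    intro v h1
    have h2 := s.int_off h1.1
    simp only [c, if_neg (out1 v h2), if_neg (out2 v h2), if_pos h1]
  have c4 : ∀ v, v ∉ s.X → v ∉ s.Zs R → c v = if third v then 2 else 1 := by
    intro v h1 h2
    simp only [c, if_neg (out1 v h1), if_neg (out2 v h1), if_neg h2]
  have c5 : ∀ v, v ∉ s.X → v ∉ s.Zs R → c v ≠ 0 := by
    intro v h1 h2
    rw [c4 v h1 h2]
    split_ifs <;> decide
  -- the four kinds of vertices
  have kinds : ∀ v, (v ∈ s.X ∧ v ∉ R) ∨ v ∈ R ∨ v ∈ s.Zs R ∨ (v ∉ s.X ∧ v ∉ s.Zs R) := by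
    intro v
    by_cases h1 : v ∈ s.X
    · by_cases h2 : v ∈ R
      · exact Or.inr (Or.inl h2)
      · exact Or.inl ⟨h1, h2⟩
    · by_cases h3 : v ∈ s.Zs R
      · exact Or.inr (Or.inr (Or.inl h3))
      · exact Or.inr (Or.inr (Or.inr ⟨h1, h3⟩))
  have nbrI : ∀ v, s.Int v → ∀ u ∈ s.X, s.G.Adj v u → u = s.w v := fun v hv u hu huv =>
    (s.hw v hv.1 hv.2).2.2 u hu huv
  have main : ∀ u v, s.G.Adj u v → ((u ∈ s.X ∧ u ∉ R) ∨ (u ∈ R ∧ ¬ (v ∈ s.X ∧ v ∉ R)) ∨
      (u ∈ s.Zs R ∧ ¬ (v ∈ s.X ∧ v ∉ R) ∧ v ∉ R) ∨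
      (u ∉ s.X ∧ u ∉ s.Zs R ∧ v ∉ s.X ∧ v ∉ s.Zs R)) → c u ≠ c v := by
    rintro u v huv (⟨h1, h2⟩ | ⟨h1, h2⟩ | ⟨h1, h2, h3⟩ | ⟨h1, h2, h3, h4⟩)
    · rw [c1 u h1 h2]
      rcases kinds v with h | h | h | h
      · exact absurd huv (s.hX u h1 v h.1)
      · rw [c2 v h]
        decide
      · have h5 := nbrI v h.1 u h1 huv.symm
        exact absurd (h5 ▸ h.2) h2
      · exact (c5 v h.1 h.2).symm
    · rw [c2 u h1]
      rcases kinds v with h | h | h | h
      · exact absurd h h2
      · exact absurd huv (s.hX u (hR.sub u h1) v (hR.sub v h))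
      · rw [c3 v h]
        decide
      · rw [c4 v h.1 h.2]
        have hI : ¬ s.Int v := by
          intro hI
          have h5 := nbrI v hI u (hR.sub u h1) huv.symm
          exact h.2 ⟨hI, h5 ▸ h1⟩
        rw [if_pos (hforced v ⟨h.1, hI, u, h1, huv⟩)]
        decide
    · rw [c3 u h1]
      rcases kinds v with h | h | h | h
      · exact absurd h h2
      · exact absurd h h3
      · exact absurd huv (z_indep hR h1 h)
      · exact (c5 v h.1 h.2).symm
    · rw [c4 u h1 h2, c4 v h3 h4]
      have h5 := hthird u v ⟨⟨huv, h1, h3⟩, h2, h4⟩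
      by_cases h6 : third u
      · rw [if_pos h6, if_neg (h5.1 h6)]
        decide
      · rw [if_neg h6]
        have h7 : third v := by
          by_contra h7
          exact h6 (h5.2 h7)
        rw [if_pos h7]
        decide
  refine ⟨Coloring.mk c ?_⟩
  intro u v huv
  rcases kinds u with h | h | h | h
  · exact main u v huv (Or.inl h)
  · by_cases h' : v ∈ s.X ∧ v ∉ R
    · exact (main v u huv.symm (Or.inl h')).symm
    · exact main u v huv (Or.inr (Or.inl ⟨h, h'⟩))
  · by_cases h' : v ∈ s.X ∧ v ∉ R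
    · exact (main v u huv.symm (Or.inl h')).symm
    · by_cases h'' : v ∈ R
      · refine (main v u huv.symm (Or.inr (Or.inl ⟨h'', ?_⟩))).symm
        exact out1 u (s.int_off h.1)
      · exact main u v huv (Or.inr (Or.inr (Or.inl ⟨h, h', h''⟩)))
  · rcases kinds v with h' | h' | h' | h'
    · exact (main v u huv.symm (Or.inl h')).symm
    · exact (main v u huv.symm (Or.inr (Or.inl ⟨h', out1 u h.1⟩))).symm
    · exact (main v u huv.symm (Or.inr (Or.inr (Or.inl ⟨h', out1 u h.1, out2 u h.1⟩)))).symm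
    · exact main u v huv (Or.inr (Or.inr (Or.inr ⟨h.1, h.2, h'.1, h'.2⟩)))

end Setup

/-- **Main theorem.** -/
theorem three_colourable (D k N : ℕ) (hN : 16 * D ^ 3 * (k * (D + 1) + 2) + 6 ≤ N)
    (G : SimpleGraph V) (hD : ∀ v, (G.neighborSet v).ncard ≤ D)
    (hg : ((k * (D * N + 1) + N + 3 : ℕ) : ℕ∞) ≤ G.egirth)
    (X : Set V) (hX : ∀ u ∈ X, ∀ v ∈ X, ¬ G.Adj u v)
    (hB : ∀ u : V, {v : V | v ∉ X ∧ 4 ≤ (G.neighborSet v).ncard ∧
      2 ≤ {z : V | G.Adj v z ∧ z ∉ X}.ncard ∧
      ∃ p : G.Walk u v, p.length ≤ k * (N + 1)}.ncard ≤ k) :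
    G.Colorable 3 := by
  classical
  let P : Set (Set V) := {X' | X ⊆ X' ∧ ∀ u ∈ X', ∀ v ∈ X', ¬ G.Adj u v}
  obtain ⟨X0, hX0P, hX0max⟩ := (Set.toFinite P).exists_maximal ⟨X, subset_rfl, hX⟩
  obtain ⟨hXX, hXi⟩ := hX0P
  -- every vertex outside has a neighbour in `X0`
  have hnb : ∀ v, v ∉ X0 → ∃ r ∈ X0, G.Adj v r := by
    intro v hv
    by_contra hcon
    push Not at hcon
    have h1 : insert v X0 ∈ P := by
      refine ⟨hXX.trans (Set.subset_insert v X0), ?_⟩
      rintro a (rfl | ha) b (rfl | hb)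
      · exact G.loopless.irrefl _
      · exact hcon b hb
      · exact fun h => hcon a ha h.symm
      · exact hXi a ha b hb
    exact hv (hX0max h1 (Set.subset_insert v X0) (Set.mem_insert v X0))
  have hH : ∀ v, v ∉ X0 → (off G X0).neighborSet v = G.neighborSet v \ X0 := by
    intro v hv
    ext u
    exact ⟨fun h => ⟨h.1, h.2.2⟩, fun h => ⟨h.1, hv, h.2⟩⟩
  have hH0 : ∀ v, v ∈ X0 → (off G X0).neighborSet v = ∅ := by
    intro v hv
    ext u
    exact ⟨fun h => absurd hv h.2.1, fun h => absurd h (Set.notMem_empty u)⟩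
  have hsplit : ∀ v, (G.neighborSet v ∩ X0).ncard + (G.neighborSet v \ X0).ncard =
      (G.neighborSet v).ncard := fun v =>
    Set.ncard_inter_add_ncard_sdiff_eq_ncard _ _ (Set.toFinite _)
  let w : V → V := fun v => if h : ∃ r ∈ X0, G.Adj v r then h.choose else v
  have hwspec : ∀ v, v ∉ X0 → w v ∈ X0 ∧ G.Adj v (w v) := by
    intro v hv
    have h := hnb v hv
    simp only [w, dif_pos h]
    exact h.choose_spec
  -- the exceptional vertices
  let Y : Set V := {v | v ∉ X0 ∧ 4 ≤ (G.neighborSet v).ncard ∧ 2 ≤ (G.neighborSet v \ X0).ncard}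
  let s : Setup V :=
    { G := G
      D := D
      k := k
      N := N
      m := N - 2
      X := X0
      Y := Y
      w := w
      hD := hD
      hN := by omega
      hm := by
        have h1 : 16 * (D * ((k + k * D + 2) * (D * D))) = 16 * D ^ 3 * (k * (D + 1) + 2) := by ring
        omega
      hg := by
        intro u c hc
        have h1 := (le_egirth.1 hg) u c hc
        have h2 : k * (D * N + 1) + N + 3 ≤ c.length := by exact_mod_cast h1
        have h3 : k * (D * N + 1) = k + k * D * N := by ring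
        omega
      hX := hXi
      hXY := fun u hu h => h.1 hu
      hY := by
        intro y0
        refine le_trans (Set.ncard_le_ncard ?_ (Set.toFinite _)) (hB y0)
        rintro y ⟨⟨hy1, hy2, hy3⟩, p, hp⟩
        refine ⟨fun h => hy1 (hXX h), hy2, hy3.trans ?_, p, hp⟩
        exact Set.ncard_le_ncard (fun z hz => ⟨hz.1, fun h => hz.2 (hXX h)⟩) (Set.toFinite _)
      hd := by
        intro v hvY
        by_cases hv : v ∈ X0
        · rw [hH0 v hv, Set.ncard_empty]
          omega
        · rw [hH v hv]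
          by_cases h4 : 4 ≤ (G.neighborSet v).ncard
          · by_contra hcon
            exact hvY ⟨hv, h4, by omega⟩
          · obtain ⟨r, hr, hvr⟩ := hnb v hv
            have h1 : 0 < (G.neighborSet v ∩ X0).ncard := by
              rw [Set.ncard_pos (Set.toFinite _)]
              exact ⟨r, hvr, hr⟩
            have h2 := hsplit v
            omega
      hw := by
        intro v hvY hv2
        have hv : v ∉ X0 := by
          intro hv
          rw [hH0 v hv, Set.ncard_empty] at hv2
          omega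
        rw [hH v hv] at hv2
        refine ⟨(hwspec v hv).1, (hwspec v hv).2, ?_⟩
        intro x hx hvx
        by_contra hne
        have h1 : 1 < (G.neighborSet v ∩ X0).ncard := by
          rw [Set.one_lt_ncard_iff (Set.toFinite _)]
          exact ⟨x, w v, ⟨hvx, hx⟩, ⟨(hwspec v hv).2, (hwspec v hv).1⟩, hne⟩
        have h2 := hsplit v
        exact hvY ⟨hv, by omega, by omega⟩ }
  exact s.colorable

end Pool.Agent.P3C
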