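import Mathlib
import Pool.Agent.Helper32.Sq.Prob

/-!
# Independent transversals (from the symmetric local lemma)
-/

set_option autoImplicit false

namespace Pool.Agent.P3C

open Finset Pool.Agent.Helper32.Sq

/-- The number of functions with a prescribed value at one place. -/
lemma card_fix {ι : Type} [Fintype ι] [DecidableEq ι] {m : ℕ} (a : ι) (x : Fin m) :
    ((univ : Finset (ι → Fin m)).filter fun w => w a = x).card * m = Fintype.card (ι → Fin m) := by
  classical
  have h1 : ((univ : Finset (ι → Fin m)).filter fun w => w a = x) =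
      Fintype.piFinset (fun i => if i = a then {x} else (univ : Finset (Fin m))) := by
    ext w
    simp only [mem_filter, mem_univ, true_and, Fintype.mem_piFinset]
    constructor
    · intro h i
      by_cases hi : i = a
      · subst hi
        simp [h]
      · simp [hi]
    · intro h
      have := h a
      simpa using this
  rw [h1, Fintype.card_piFinset, Fintype.card_fun, Fintype.card_fin]
  have h2 : ∀ i : ι, (if i = a then ({x} : Finset (Fin m)) else univ).card =
      if i = a then 1 else m := by
    intro i
    by_cases hi : i = a <;> simp [hi]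
  simp_rw [h2]
  rw [← Finset.mul_prod_erase univ _ (mem_univ a)]
  have h3 : ∏ i ∈ univ.erase a, (if i = a then 1 else m) = ∏ i ∈ univ.erase a, m := by
    apply Finset.prod_congr rfl
    intro i hi
    rw [if_neg (ne_of_mem_erase hi)]
  rw [h3, Finset.prod_const, card_erase_of_mem (mem_univ a), if_pos rfl, one_mul, ← pow_succ,
    card_univ]
  have : 0 < Fintype.card ι := Fintype.card_pos_iff.2 ⟨a⟩
  congr 1
  omega

lemma card_first {ι : Type} [Fintype ι] [DecidableEq ι] (m B : ℕ)
    (Rel : ι × Fin m → ι × Fin m → Prop) [DecidableRel Rel]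
    (hB : ∀ a, (univ.filter fun b => Rel a b).card ≤ B) (K : ι)
    (S : Finset ((ι × Fin m) × (ι × Fin m))) (hS : ∀ p ∈ S, p.1.1 = K ∧ Rel p.1 p.2) :
    S.card ≤ B * m := by
  classical
  have h1 := Finset.card_le_mul_card_image (f := fun p : (ι × Fin m) × (ι × Fin m) => p.1.2) S B
    (by
      intro i _
      refine le_trans ?_ (hB (K, i))
      apply Finset.card_le_card_of_injOn (fun p => p.2)
      · intro p hp
        rw [Finset.mem_coe, mem_filter] at hp
        have h2 := hS p hp.1
        rw [Finset.mem_coe, mem_filter]
        refine ⟨mem_univ _, ?_⟩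
        have h3 : p.1 = (K, i) := Prod.ext h2.1 hp.2
        rw [← h3]
        exact h2.2
      · intro p hp q hq hpq
        rw [Finset.mem_coe, mem_filter] at hp hq
        have h2 := hS p hp.1
        have h3 := hS q hq.1
        have h4 : p.1 = q.1 := Prod.ext (h2.1.trans h3.1.symm) (hp.2.trans hq.2.symm)
        exact Prod.ext h4 hpq)
  refine h1.trans (Nat.mul_le_mul_left _ ?_)
  refine (Finset.card_le_univ _).trans ?_
  simp

/-- **Independent transversals.** Classes `{K} × Fin m`, a conflict relation with at most `B`
conflicts at each point in both directions, `16 B + 4 ≤ m`. -/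
theorem transversal {ι : Type} [Fintype ι] [DecidableEq ι] (m B : ℕ) (hm : 16 * B + 4 ≤ m)
    (Rel : ι × Fin m → ι × Fin m → Prop) [DecidableRel Rel]
    (hB : ∀ a, (univ.filter fun b => Rel a b).card ≤ B)
    (hB' : ∀ a, (univ.filter fun b => Rel b a).card ≤ B) :
    ∃ f : ι → Fin m, ∀ K K', K ≠ K' → ¬ Rel (K, f K) (K', f K') := by
  classical
  haveI : Nonempty (Fin m) := ⟨⟨0, by omega⟩⟩
  let J := {p : (ι × Fin m) × (ι × Fin m) // p.1.1 ≠ p.2.1 ∧ Rel p.1 p.2}
  let T : J → Finset ι := fun j => {j.1.1.1, j.1.2.1}
  let A : J → Finset (ι → Fin m) := fun j =>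
    univ.filter fun w => w j.1.1.1 = j.1.1.2 ∧ w j.1.2.1 = j.1.2.2
  have hmr : (0 : ℝ) < m := by
    have : 0 < m := by omega
    exact_mod_cast this
  have hΩ : (0 : ℝ) < Fintype.card (ι → Fin m) := by exact_mod_cast Fintype.card_pos
  obtain ⟨f, hf⟩ := lll (α := Fin m) (ι := ι) (J := J) A T
    (by
      intro j w w' hw hA
      rw [mem_filter] at hA ⊢
      refine ⟨mem_univ _, ?_, ?_⟩
      · rw [← hw _ (by simp [T])]
        exact hA.2.1
      · rw [← hw _ (by simp [T])]
        exact hA.2.2)
    (1 / (m : ℝ) ^ 2) (4 * (B * m)) (by positivity)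
    (by
      intro j
      have h1 : A j = (univ.filter fun w : ι → Fin m => w j.1.1.1 = j.1.1.2) ∩
          (univ.filter fun w : ι → Fin m => w j.1.2.1 = j.1.2.2) := by
        ext w
        simp [A]
      have h2 := card_indep {j.1.1.1} {j.1.2.1} (by simpa using j.2.1)
        (univ.filter fun w : ι → Fin m => w j.1.1.1 = j.1.1.2)
        (univ.filter fun w : ι → Fin m => w j.1.2.1 = j.1.2.2)
        (by
          intro w w' hw hA
          rw [mem_filter] at hA ⊢
          exact ⟨mem_univ _, by rw [← hw _ (by simp)]; exact hA.2⟩)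
        (by
          intro w w' hw hA
          rw [mem_filter] at hA ⊢
          exact ⟨mem_univ _, by rw [← hw _ (by simp)]; exact hA.2⟩)
      rw [← h1] at h2
      have h3 : (((univ : Finset (ι → Fin m)).filter fun w => w j.1.1.1 = j.1.1.2).card : ℝ) * m =
          Fintype.card (ι → Fin m) := by exact_mod_cast card_fix _ _
      have h4 : (((univ : Finset (ι → Fin m)).filter fun w => w j.1.2.1 = j.1.2.2).card : ℝ) * m =
          Fintype.card (ι → Fin m) := by exact_mod_cast card_fix _ _
      have h5 : ((A j).card : ℝ) * (m : ℝ) ^ 2 = Fintype.card (ι → Fin m) := by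
        have h6 : (((A j).card : ℝ) * (m : ℝ) ^ 2) * Fintype.card (ι → Fin m) =
            Fintype.card (ι → Fin m) * Fintype.card (ι → Fin m) := by
          calc (((A j).card : ℝ) * (m : ℝ) ^ 2) * Fintype.card (ι → Fin m)
              = (((A j).card : ℝ) * Fintype.card (ι → Fin m)) * (m : ℝ) ^ 2 := by ring
            _ = _ := by
              rw [h2]
              nth_rewrite 2 [← h3]
              rw [← h4]
              ring
        exact mul_right_cancel₀ hΩ.ne' h6
      rw [← h5]
      have : (1 / (m : ℝ) ^ 2) * (((A j).card : ℝ) * (m : ℝ) ^ 2) = (A j).card := by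
        field_simp
      rw [this])
    (by
      intro j
      have key : ∀ K : ι, ((univ : Finset J).filter fun j' => K ∈ T j').card ≤ 2 * (B * m) := by
        intro K
        have h1 : ((univ : Finset J).filter fun j' => K ∈ T j') ⊆
            ((univ : Finset J).filter fun j' => j'.1.1.1 = K) ∪
            ((univ : Finset J).filter fun j' => j'.1.2.1 = K) := by
          intro j' hj'
          rw [mem_filter] at hj'
          have h2 : K = j'.1.1.1 ∨ K = j'.1.2.1 := by simpa [T] using hj'.2
          rw [mem_union, mem_filter, mem_filter]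
          rcases h2 with h2 | h2
          · exact Or.inl ⟨mem_univ _, h2.symm⟩
          · exact Or.inr ⟨mem_univ _, h2.symm⟩
        have h2 : ((univ : Finset J).filter fun j' => j'.1.1.1 = K).card ≤ B * m := by
          rw [← Finset.card_map (Function.Embedding.subtype _)]
          apply card_first m B Rel hB K
          intro p hp
          rw [mem_map] at hp
          obtain ⟨j', hj', rfl⟩ := hp
          rw [mem_filter] at hj'
          exact ⟨hj'.2, j'.2.2⟩
        have h3 : ((univ : Finset J).filter fun j' => j'.1.2.1 = K).card ≤ B * m := by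
          have h4 := card_first m B (fun a b => Rel b a) hB' K
            ((((univ : Finset J).filter fun j' => j'.1.2.1 = K).map
              (Function.Embedding.subtype _)).map (Equiv.prodComm _ _).toEmbedding) (by
              intro p hp
              rw [mem_map] at hp
              obtain ⟨q, hq, rfl⟩ := hp
              rw [mem_map] at hq
              obtain ⟨j', hj', rfl⟩ := hq
              rw [mem_filter] at hj'
              exact ⟨hj'.2, j'.2.2⟩)
          rwa [Finset.card_map, Finset.card_map] at h4
        have h4 := (card_le_card h1).trans (card_union_le _ _)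
        omega
      have h1 : ((univ : Finset J).filter fun j' => ¬ Disjoint (T j) (T j')) ⊆
          ((univ : Finset J).filter fun j' => j.1.1.1 ∈ T j') ∪
          ((univ : Finset J).filter fun j' => j.1.2.1 ∈ T j') := by
        intro j' hj'
        rw [mem_filter, Finset.not_disjoint_iff] at hj'
        obtain ⟨_, K, hK, hK'⟩ := hj'
        have h2 : K = j.1.1.1 ∨ K = j.1.2.1 := by simpa [T] using hK
        rw [mem_union, mem_filter, mem_filter]
        rcases h2 with h2 | h2
        · exact Or.inl ⟨mem_univ _, h2 ▸ hK'⟩
        · exact Or.inr ⟨mem_univ _, h2 ▸ hK'⟩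
      have h2 := (card_le_card h1).trans (card_union_le _ _)
      have h3 := key j.1.1.1
      have h4 := key j.1.2.1
      omega)
    (by
      have h1 : (16 * B + 4 : ℝ) ≤ m := by exact_mod_cast hm
      have h2 : (1 : ℝ) ≤ m := by
        have : 1 ≤ m := by omega
        exact_mod_cast this
      have h3 : (0 : ℝ) ≤ B := by positivity
      push_cast
      rw [show 4 * (1 / (m : ℝ) ^ 2) * (4 * (B * m) + 1) = (4 * (4 * (B * m) + 1)) / (m : ℝ) ^ 2 by
        ring]
      rw [div_le_one (by positivity)]
      nlinarith)
  refine ⟨f, fun K K' hK hR => ?_⟩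
  apply hf ⟨((K, f K), (K', f K')), hK, hR⟩
  rw [mem_filter]
  exact ⟨mem_univ _, rfl, rfl⟩

end Pool.Agent.P3C
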